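import Mathlib
import Pool.Agent.U562.WV.Stm
set_option autoImplicit false

open MeasureTheory Set Metric
open scoped ENNReal NNReal

namespace Pool.Agent.U260.WV

open Pool.Agent.U562.WV

theorem wt_le (K : Set (E 3)) (δ : ℝ) (hδ : 0 < δ) (y : E 3) :
    wt K δ y ≤ ∑' j : ℕ, ENNReal.ofReal ((1 / 2) ^ j) *
      ({x | infDist x K < 2 ^ (j + 1) * δ}.indicator (fun _ => (1 : ℝ≥0∞)) y) := by
  by_cases h : infDist y K < δ
  · refine le_trans ?_ (ENNReal.le_tsum 0)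
    have hm : y ∈ {x | infDist x K < 2 ^ (0 + 1) * δ} := by
      show infDist y K < 2 ^ (0 + 1) * δ
      have : δ ≤ 2 ^ (0 + 1) * δ := by norm_num; linarith
      linarith
    rw [indicator_of_mem hm]
    unfold wt
    rw [pow_zero, ENNReal.ofReal_one, one_mul]
    rw [max_eq_left h.le, div_self hδ.ne', ENNReal.ofReal_one]
  · push Not at h
    obtain ⟨j, h1, h2⟩ := exists_nat_pow_near (x := infDist y K / δ) (y := 2)
      ((one_le_div hδ).mpr h) (by norm_num)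
    refine le_trans ?_ (ENNReal.le_tsum j)
    have hm : y ∈ {x | infDist x K < 2 ^ (j + 1) * δ} := by
      show infDist y K < 2 ^ (j + 1) * δ
      exact (div_lt_iff₀ hδ).mp h2
    rw [indicator_of_mem hm, mul_one]
    unfold wt
    apply ENNReal.ofReal_le_ofReal
    rw [max_eq_right h]
    have hd : 0 < infDist y K := hδ.trans_le h
    rw [div_le_iff₀ hd, one_div, inv_pow]
    have h3 : 2 ^ j * δ ≤ infDist y K := (le_div_iff₀ hδ).mp h1
    have h4 : (0 : ℝ) < 2 ^ j := by positivity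
    calc δ = (2 ^ j)⁻¹ * (2 ^ j * δ) := by field_simp
      _ ≤ (2 ^ j)⁻¹ * infDist y K := by gcongr

theorem inv_le (b : E 3) (R : ℝ) (hR : 0 < R) (y : E 3) (hy : y ∈ ball b R) (hne : y ≠ b) :
    (‖y - b‖ₑ ^ 2)⁻¹ ≤ ∑' i : ℕ, ENNReal.ofReal (4 * 4 ^ i / R ^ 2) *
      ((ball b (2 * R / 2 ^ i)).indicator (fun _ => (1 : ℝ≥0∞)) y) := by
  have hpos : 0 < ‖y - b‖ := norm_pos_iff.mpr (sub_ne_zero.mpr hne)
  have hlt : ‖y - b‖ < R := by rwa [mem_ball, dist_eq_norm] at hy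
  obtain ⟨i, h1, h2⟩ := exists_nat_pow_near (x := R / ‖y - b‖) (y := 2)
    ((one_le_div hpos).mpr hlt.le) (by norm_num)
  refine le_trans ?_ (ENNReal.le_tsum i)
  have h3 : 2 ^ i * ‖y - b‖ ≤ R := (le_div_iff₀ hpos).mp h1
  have h4 : R < 2 ^ (i + 1) * ‖y - b‖ := (div_lt_iff₀ hpos).mp h2
  have hp : (0 : ℝ) < 2 ^ i := by positivity
  have hm : y ∈ ball b (2 * R / 2 ^ i) := by
    rw [mem_ball, dist_eq_norm, lt_div_iff₀ hp]
    nlinarith
  rw [indicator_of_mem hm, mul_one]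
  have e : ‖y - b‖ₑ ^ 2 = ENNReal.ofReal (‖y - b‖ ^ 2) := by
    rw [← ofReal_norm, ENNReal.ofReal_pow (norm_nonneg _)]
  rw [e, ← ENNReal.ofReal_inv_of_pos (by positivity)]
  apply ENNReal.ofReal_le_ofReal
  rw [inv_eq_one_div, div_le_div_iff₀ (by positivity) (by positivity)]
  have h5 : R ^ 2 ≤ (2 ^ (i + 1) * ‖y - b‖) ^ 2 := by
    have := h4.le
    gcongr
  have h6 : (2 ^ (i + 1) * ‖y - b‖) ^ 2 = 4 * 4 ^ i * ‖y - b‖ ^ 2 := by
    have h7 : (4 : ℝ) ^ i = (2 ^ i) ^ 2 := by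
      rw [← pow_mul, mul_comm i 2, pow_mul]
      norm_num
    rw [h7]
    ring
  rw [one_mul, ← h6]
  exact h5

/-- volume of the unit ball of `E 3`, as a real number -/
noncomputable def cc : ℝ := (volume (ball (0 : E 3) 1)).toReal

theorem cc_pos : 0 < cc := by
  unfold cc
  exact ENNReal.toReal_pos (measure_ball_pos _ _ one_pos).ne' measure_ball_lt_top.ne

theorem vol_ball (b : E 3) (ρ : ℝ) (hρ : 0 < ρ) :
    volume (ball b ρ) = ENNReal.ofReal (cc * ρ ^ 3) := by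
  rw [Measure.addHaar_ball volume b hρ.le]
  have h1 : Module.finrank ℝ (E 3) = 3 := by simp [E]
  rw [h1, mul_comm cc, ENNReal.ofReal_mul (by positivity)]
  congr 1
  unfold cc
  rw [ENNReal.ofReal_toReal measure_ball_lt_top.ne]

theorem vol_le (A a : ℝ) (hA : 0 ≤ A) (ha : 0 < a) (ha1 : a < 1) (K : Set (E 3)) (hK : Thin A K)
    (b : E 3) (ρ r : ℝ) (hρ : 0 < ρ) (hr : 0 < r) :
    volume (ball b ρ ∩ {x | infDist x K < r}) ≤
      ENNReal.ofReal (A ^ a * cc ^ (1 - a) * ρ ^ (3 - a) * r ^ a) := by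
  have h1 := hK b ρ r hρ hr
  have h2 : volume (ball b ρ ∩ {x | infDist x K < r}) ≤ ENNReal.ofReal (cc * ρ ^ 3) := by
    rw [← vol_ball b ρ hρ]
    exact measure_mono inter_subset_left
  set v := volume (ball b ρ ∩ {x | infDist x K < r}) with hv
  have hfin : v ≠ ⊤ := (h2.trans_lt ENNReal.ofReal_lt_top).ne
  have hx : v = ENNReal.ofReal v.toReal := (ENNReal.ofReal_toReal hfin).symm
  have h3 : v.toReal ≤ A * ρ ^ 2 * r := by
    rw [hx] at h1
    exact (ENNReal.ofReal_le_ofReal_iff (by positivity)).mp h1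
  have h4 : v.toReal ≤ cc * ρ ^ 3 := by
    rw [hx] at h2
    exact (ENNReal.ofReal_le_ofReal_iff (by have := cc_pos; positivity)).mp h2
  rw [hx]
  apply ENNReal.ofReal_le_ofReal
  have h0 : 0 ≤ v.toReal := ENNReal.toReal_nonneg
  have hc := cc_pos
  calc v.toReal = v.toReal ^ a * v.toReal ^ (1 - a) := by
        rw [← Real.rpow_add_of_nonneg h0 ha.le (by linarith)]
        norm_num
    _ ≤ (A * ρ ^ 2 * r) ^ a * (cc * ρ ^ 3) ^ (1 - a) := by
        gcongr
    _ = A ^ a * cc ^ (1 - a) * ρ ^ (3 - a) * r ^ a := by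
        rw [Real.mul_rpow (by positivity) hr.le, Real.mul_rpow hA (by positivity),
          Real.mul_rpow hc.le (by positivity), ← Real.rpow_natCast ρ 2, ← Real.rpow_natCast ρ 3,
          ← Real.rpow_mul hρ.le, ← Real.rpow_mul hρ.le]
        have : ρ ^ (3 - a) = ρ ^ (((2 : ℕ) : ℝ) * a) * ρ ^ (((3 : ℕ) : ℝ) * (1 - a)) := by
          rw [← Real.rpow_add hρ]
          congr 1
          push_cast
          ring
        rw [this]
        ring

theorem inter_indicator_mul_aux (s t : Set (E 3)) (y : E 3) :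
    (s ∩ t).indicator (fun _ => (1 : ℝ≥0∞)) y =
      s.indicator (fun _ => (1 : ℝ≥0∞)) y * t.indicator (fun _ => (1 : ℝ≥0∞)) y := by
  by_cases h1 : y ∈ s <;> by_cases h2 : y ∈ t <;> simp [h1, h2, indicator]

theorem term_eq (A a : ℝ) (R δ : ℝ) (hR : 0 < R) (hδ : 0 < δ) (i j : ℕ) :
    (4 * 4 ^ i / R ^ 2) * (1 / 2) ^ j *
      (A ^ a * cc ^ (1 - a) * (2 * R / 2 ^ i) ^ (3 - a) * (2 ^ (j + 1) * δ) ^ a) =
    (32 * A ^ a * cc ^ (1 - a)) * (R ^ (1 - a) * δ ^ a) * ((2 : ℝ) ^ (a - 1)) ^ i *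
      ((2 : ℝ) ^ (a - 1)) ^ j := by
  have h2 : (0 : ℝ) < 2 := by norm_num
  have e1 : (2 * R / 2 ^ i) ^ (3 - a) = 2 ^ (3 - a) * R ^ (3 - a) * 2 ^ (-((i : ℝ) * (3 - a))) := by
    rw [Real.div_rpow (by positivity) (by positivity), Real.mul_rpow h2.le hR.le,
      ← Real.rpow_natCast 2 i, ← Real.rpow_mul h2.le, Real.rpow_neg h2.le]
    rfl
  have e2 : (2 ^ (j + 1) * δ) ^ a = 2 ^ (((j : ℝ) + 1) * a) * δ ^ a := by
    rw [Real.mul_rpow (by positivity) hδ.le, ← Real.rpow_natCast 2 (j + 1), ← Real.rpow_mul h2.le]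
    push_cast
    rfl
  have e3 : (4 : ℝ) ^ i = 2 ^ (2 * (i : ℝ)) := by
    rw [Real.rpow_mul h2.le, Real.rpow_natCast]
    norm_num
  have e4 : (1 / 2 : ℝ) ^ j = 2 ^ (-(j : ℝ)) := by
    rw [Real.rpow_neg h2.le, Real.rpow_natCast, one_div, inv_pow]
  have e5 : ((2 : ℝ) ^ (a - 1)) ^ i = 2 ^ ((a - 1) * i) := by
    rw [Real.rpow_mul h2.le, Real.rpow_natCast]
  have e6 : ((2 : ℝ) ^ (a - 1)) ^ j = 2 ^ ((a - 1) * j) := by
    rw [Real.rpow_mul h2.le, Real.rpow_natCast]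
  have e7 : R ^ (3 - a) = R ^ (1 - a) * R ^ 2 := by
    rw [← Real.rpow_natCast R 2, ← Real.rpow_add hR]
    congr 1
    push_cast
    ring
  rw [e1, e2, e3, e4, e5, e6, e7]
  have e8 : (32 : ℝ) = 4 * 2 ^ (3 : ℝ) := by norm_num
  rw [e8]
  have e9 : (4 * 2 ^ (2 * (i : ℝ)) / R ^ 2) * 2 ^ (-(j : ℝ)) *
      (A ^ a * cc ^ (1 - a) * (2 ^ (3 - a) * (R ^ (1 - a) * R ^ 2) * 2 ^ (-((i : ℝ) * (3 - a)))) *
        (2 ^ (((j : ℝ) + 1) * a) * δ ^ a)) =
      4 * (A ^ a * cc ^ (1 - a)) * (R ^ (1 - a) * δ ^ a) *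
        ((2 : ℝ) ^ (2 * (i : ℝ)) * 2 ^ (-(j : ℝ)) * 2 ^ (3 - a) * 2 ^ (-((i : ℝ) * (3 - a))) *
          2 ^ (((j : ℝ) + 1) * a)) := by
    field_simp
  rw [e9]
  have e10 : (2 : ℝ) ^ (2 * (i : ℝ)) * 2 ^ (-(j : ℝ)) * 2 ^ (3 - a) * 2 ^ (-((i : ℝ) * (3 - a))) *
      2 ^ (((j : ℝ) + 1) * a) = 2 ^ (3 : ℝ) * 2 ^ ((a - 1) * i) * 2 ^ ((a - 1) * j) := by
    rw [← Real.rpow_add h2, ← Real.rpow_add h2, ← Real.rpow_add h2, ← Real.rpow_add h2,
      ← Real.rpow_add h2, ← Real.rpow_add h2]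
    congr 1
    ring
  rw [e10]
  ring

theorem t_SCH : S_SCH := by
  intro A a hA ha ha1
  set q : ℝ := (2 : ℝ) ^ (a - 1) with hq
  have hq0 : 0 < q := by positivity
  have hq1 : q < 1 := Real.rpow_lt_one_of_one_lt_of_neg (by norm_num) (by linarith)
  have hc := cc_pos
  refine ⟨32 * A ^ a * cc ^ (1 - a) * (1 - q)⁻¹ * (1 - q)⁻¹ + 1, ?_, ?_⟩
  · have : 0 < 1 - q := by linarith
    positivity
  intro K hK δ R b hδ hR
  have hmeasD : ∀ r : ℝ, MeasurableSet {x : E 3 | infDist x K < r} := fun r =>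
    measurableSet_lt (continuous_infDist_pt K).measurable measurable_const
  have hne : ∀ᵐ y ∂(volume.restrict (ball b R)), y ≠ b := by
    apply ae_restrict_of_ae
    have : ({b}ᶜ : Set (E 3)) ∈ ae volume := compl_mem_ae_iff.mpr (measure_singleton b)
    filter_upwards [this] with y hy
    simpa using hy
  have hin : ∀ᵐ y ∂(volume.restrict (ball b R)), y ∈ ball b R :=
    ae_restrict_mem measurableSet_ball
  calc ∫⁻ y in ball b R, wt K δ y / ‖y - b‖ₑ ^ 2
      ≤ ∫⁻ y in ball b R, ∑' i : ℕ, ∑' j : ℕ,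
          ENNReal.ofReal (4 * 4 ^ i / R ^ 2) * ENNReal.ofReal ((1 / 2) ^ j) *
            (ball b (2 * R / 2 ^ i) ∩ {x | infDist x K < 2 ^ (j + 1) * δ}).indicator
              (fun _ => (1 : ℝ≥0∞)) y := by
        refine lintegral_mono_ae ?_
        filter_upwards [hne, hin] with y hy1 hy2
        rw [ENNReal.div_eq_inv_mul]
        refine (mul_le_mul' (inv_le b R hR y hy2 hy1) (wt_le K δ hδ y)).trans ?_
        rw [← ENNReal.tsum_mul_right]
        refine ENNReal.tsum_le_tsum fun i => ?_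
        rw [← ENNReal.tsum_mul_left]
        refine ENNReal.tsum_le_tsum fun j => ?_
        refine le_of_eq ?_
        rw [inter_indicator_mul_aux]
        ring
    _ ≤ ∫⁻ y, ∑' i : ℕ, ∑' j : ℕ,
          ENNReal.ofReal (4 * 4 ^ i / R ^ 2) * ENNReal.ofReal ((1 / 2) ^ j) *
            (ball b (2 * R / 2 ^ i) ∩ {x | infDist x K < 2 ^ (j + 1) * δ}).indicator
              (fun _ => (1 : ℝ≥0∞)) y := setLIntegral_le_lintegral _ _
    _ = ∑' i : ℕ, ∑' j : ℕ, ENNReal.ofReal (4 * 4 ^ i / R ^ 2) * ENNReal.ofReal ((1 / 2) ^ j) *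
          volume (ball b (2 * R / 2 ^ i) ∩ {x | infDist x K < 2 ^ (j + 1) * δ}) := by
        have hms : ∀ i j : ℕ, MeasurableSet
            (ball b (2 * R / 2 ^ i) ∩ {x | infDist x K < 2 ^ (j + 1) * δ}) := fun i j =>
          measurableSet_ball.inter (hmeasD _)
        rw [lintegral_tsum]
        · congr 1
          funext i
          rw [lintegral_tsum]
          · congr 1
            funext j
            rw [lintegral_const_mul _ (measurable_const.indicator (hms i j)),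
              lintegral_indicator (hms i j)]
            simp
          · intro j
            exact ((measurable_const.indicator (hms i j)).const_mul _).aemeasurable
        · intro i
          refine Measurable.aemeasurable (Measurable.tsum fun j => ?_)
          exact (measurable_const.indicator (hms i j)).const_mul _
    _ ≤ ∑' i : ℕ, ∑' j : ℕ, ENNReal.ofReal (32 * A ^ a * cc ^ (1 - a) * (R ^ (1 - a) * δ ^ a)) *
          ENNReal.ofReal q ^ i * ENNReal.ofReal q ^ j := by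
        refine ENNReal.tsum_le_tsum fun i => ENNReal.tsum_le_tsum fun j => ?_
        refine (mul_le_mul_right (vol_le A a hA ha ha1 K hK b (2 * R / 2 ^ i) (2 ^ (j + 1) * δ)
          (by positivity) (by positivity)) _).trans ?_
        rw [← ENNReal.ofReal_mul (by positivity), ← ENNReal.ofReal_mul (by positivity),
          term_eq A a R δ hR hδ i j, ENNReal.ofReal_mul (by positivity),
          ENNReal.ofReal_mul (by positivity), ENNReal.ofReal_pow hq0.le, ENNReal.ofReal_pow hq0.le]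
    _ = ENNReal.ofReal (32 * A ^ a * cc ^ (1 - a) * (R ^ (1 - a) * δ ^ a)) *
          ENNReal.ofReal ((1 - q)⁻¹) * ENNReal.ofReal ((1 - q)⁻¹) := by
        have hg : ∑' j : ℕ, ENNReal.ofReal q ^ j = ENNReal.ofReal ((1 - q)⁻¹) := by
          rw [ENNReal.tsum_geometric, ENNReal.ofReal_inv_of_pos (by linarith),
            ENNReal.ofReal_sub _ hq0.le, ENNReal.ofReal_one]
        simp_rw [ENNReal.tsum_mul_left, hg]
        rw [ENNReal.tsum_mul_right, ENNReal.tsum_mul_left, hg]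
    _ ≤ ENNReal.ofReal ((32 * A ^ a * cc ^ (1 - a) * (1 - q)⁻¹ * (1 - q)⁻¹ + 1) *
          R ^ (1 - a) * δ ^ a) := by
        have h1q : 0 < 1 - q := by linarith
        rw [← ENNReal.ofReal_mul (by positivity), ← ENNReal.ofReal_mul (by positivity)]
        apply ENNReal.ofReal_le_ofReal
        have hX : 0 ≤ R ^ (1 - a) * δ ^ a := by positivity
        nlinarith [hX]

end Pool.Agent.U260.WV
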